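import Mathlib

set_option autoImplicit false

/-!
A binary tree of events of probability one half, one for each node, such that the coordinates
increase along the branches: by the inequality of Harris and Kleitman the probability that there is
a path of length `d` all of whose events occur is at most `2 / (d + 2)`.
-/

namespace Pool.Agent.Helper144.EKM

open Finset

open Classical in
/-- The number of the subsets of `{0, ..., L - 1}` with the property `P`. -/
noncomputable def cnt (L : ℕ) (P : Finset ℕ → Prop) : ℕ := #{Y ∈ (range L).powerset | P Y}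

open Classical in
theorem cnt_not (L : ℕ) (P : Finset ℕ → Prop) :
    (#{Y ∈ (range L).powerset | ¬ P Y} : ℝ) = 2 ^ L - cnt L P := by
  have h := Finset.card_filter_add_card_filter_not (s := (range L).powerset) P
  rw [card_powerset, card_range] at h
  have h' : ((#{Y ∈ (range L).powerset | P Y} : ℕ) : ℝ) +
      (#{Y ∈ (range L).powerset | ¬ P Y} : ℕ) = 2 ^ L := by exact_mod_cast h
  unfold cnt
  linarith

open Classical in
theorem cnt_or {L : ℕ} {P Q : Finset ℕ → Prop} (hP : ∀ Y Z, Y ⊆ Z → P Y → P Z)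
    (hQ : ∀ Y Z, Y ⊆ Z → Q Y → Q Z) :
    ((2 : ℝ) ^ L - cnt L P) * (2 ^ L - cnt L Q) ≤
      2 ^ L * (2 ^ L - cnt L fun Y => P Y ∨ Q Y) := by
  have hl : ∀ R : Finset ℕ → Prop, (∀ Y Z, Y ⊆ Z → R Y → R Z) →
      IsLowerSet (({Y ∈ (range L).powerset | ¬ R Y} : Finset (Finset ℕ)) :
        Set (Finset ℕ)) := by
    intro R hR Y Z hYZ hY
    simp only [coe_filter, mem_powerset, Set.mem_ofPred_eq] at hY ⊢
    exact ⟨hYZ.trans hY.1, fun h => hY.2 (hR Z Y hYZ h)⟩
  have h := IsLowerSet.le_card_inter_finset' (s := range L) (hl P hP) (hl Q hQ)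
    (fun t ht => by simpa using (mem_filter.1 ht).1) (fun t ht => by simpa using (mem_filter.1 ht).1)
  have h1 : ({Y ∈ (range L).powerset | ¬ P Y} ∩ {Y ∈ (range L).powerset | ¬ Q Y} :
      Finset (Finset ℕ)) = {Y ∈ (range L).powerset | ¬ (P Y ∨ Q Y)} := by
    ext Y
    simp only [mem_inter, mem_filter]
    tauto
  rw [h1, card_range] at h
  have h2 : ((#{Y ∈ (range L).powerset | ¬ P Y} : ℕ) : ℝ) *
      (#{Y ∈ (range L).powerset | ¬ Q Y} : ℕ) ≤
      2 ^ L * (#{Y ∈ (range L).powerset | ¬ (P Y ∨ Q Y)} : ℕ) := by exact_mod_cast h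
  have h3 : ((#{Y ∈ (range L).powerset | ¬ (P Y ∨ Q Y)} : ℕ) : ℝ) =
      2 ^ L - cnt L fun Y => P Y ∨ Q Y := by
    convert cnt_not L (fun Y => P Y ∨ Q Y)
  rw [cnt_not, cnt_not, h3] at h2
  exact h2

open Classical in
theorem cnt_mem {L j : ℕ} (hj : j < L) {P : Finset ℕ → Prop}
    (hP : ∀ Y, P (insert j Y) ↔ P (Y.erase j)) :
    2 * cnt L (fun Y => j ∈ Y ∧ P Y) = cnt L P := by
  have h := Finset.card_filter_add_card_filter_not (s := {Y ∈ (range L).powerset | P Y})
    (fun Y => j ∈ Y)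
  have h1 : #{Y ∈ {Y ∈ (range L).powerset | P Y} | j ∈ Y} = cnt L fun Y => j ∈ Y ∧ P Y := by
    unfold cnt
    rw [filter_filter]
    congr 1
    ext Y
    simp only [mem_filter]
    tauto
  have h2 : #{Y ∈ {Y ∈ (range L).powerset | P Y} | j ∉ Y} = cnt L fun Y => j ∈ Y ∧ P Y := by
    unfold cnt
    rw [filter_filter]
    refine (Finset.card_bij (fun Y _ => Y.erase j) ?_ ?_ ?_).symm
    · intro Y hY
      simp only [mem_filter, mem_powerset] at hY ⊢
      refine ⟨(erase_subset _ _).trans hY.1, ?_, by simp⟩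
      rw [← hP, insert_eq_self.2 hY.2.1]
      exact hY.2.2
    · intro Y hY Z hZ hYZ
      simp only [mem_filter, mem_powerset] at hY hZ
      rw [← insert_erase hY.2.1, ← insert_erase hZ.2.1, hYZ]
    · intro Y hY
      simp only [mem_filter, mem_powerset] at hY
      refine ⟨insert j Y, ?_, erase_insert hY.2.2⟩
      simp only [mem_filter, mem_powerset]
      refine ⟨insert_subset (by simpa using hj) hY.1, mem_insert_self _ _, ?_⟩
      rw [hP, erase_eq_of_notMem hY.2.2]
      exact hY.2.1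
  rw [h1, h2] at h
  unfold cnt at h ⊢
  omega

/-- There is a path of length `d` from the node `σ` such that the coordinate of every node of the
path is in `Y`. -/
def Ev (J : List Bool → ℕ) : ℕ → List Bool → Finset ℕ → Prop
  | 0, _, _ => True
  | d + 1, σ, Y => J σ ∈ Y ∧ (Ev J d (σ ++ [false]) Y ∨ Ev J d (σ ++ [true]) Y)

theorem ev_mono (J : List Bool → ℕ) (d : ℕ) : ∀ (σ : List Bool) (Y Z : Finset ℕ), Y ⊆ Z →
    Ev J d σ Y → Ev J d σ Z := by
  induction d with
  | zero => exact fun _ _ _ _ _ => trivial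
  | succ d ih =>
    rintro σ Y Z h ⟨h1, h2⟩
    exact ⟨h h1, h2.imp (ih _ _ _ h) (ih _ _ _ h)⟩

theorem ev_indep {J : List Bool → ℕ} (hJ : ∀ σ b, J σ < J (σ ++ [b])) (d : ℕ) :
    ∀ (σ : List Bool) (j : ℕ), j < J σ → ∀ Y, Ev J d σ (insert j Y) ↔ Ev J d σ (Y.erase j) := by
  induction d with
  | zero => exact fun _ _ _ _ => Iff.rfl
  | succ d ih =>
    intro σ j hj Y
    have h1 : J σ ∈ insert j Y ↔ J σ ∈ Y.erase j := by
      rw [mem_insert, mem_erase]
      have : J σ ≠ j := by omega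
      tauto
    have h2 := fun b => ih (σ ++ [b]) j (hj.trans (hJ σ b)) Y
    change (J σ ∈ insert j Y ∧ (Ev J d (σ ++ [false]) _ ∨ Ev J d (σ ++ [true]) _)) ↔
      (J σ ∈ Y.erase j ∧ (Ev J d (σ ++ [false]) _ ∨ Ev J d (σ ++ [true]) _))
    rw [h1, h2 false, h2 true]

theorem cnt_true (L : ℕ) : cnt L (fun _ => True) = 2 ^ L := by
  unfold cnt
  simp

/-- The estimate. -/
theorem cnt_ev {J : List Bool → ℕ} (hJ : ∀ σ b, J σ < J (σ ++ [b])) (L N : ℕ)
    (hL : ∀ σ : List Bool, σ.length < N → J σ < L) (d : ℕ) :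
    ∀ σ : List Bool, σ.length + d ≤ N → (d + 2 : ℝ) * cnt L (Ev J d σ) ≤ 2 * 2 ^ L := by
  induction d with
  | zero =>
    intro σ _
    have h : cnt L (Ev J 0 σ) = 2 ^ L := cnt_true L
    rw [h]
    push_cast
    linarith
  | succ d ih =>
    intro σ hσ
    have hM : (0 : ℝ) < 2 ^ L := by positivity
    have h0 := ih (σ ++ [false]) (by simp; omega)
    have h1 := ih (σ ++ [true]) (by simp; omega)
    have h2 := cnt_or (L := L) (ev_mono J d (σ ++ [false])) (ev_mono J d (σ ++ [true]))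
    have h3 := cnt_mem (hL σ (by omega)) (P := fun Y => Ev J d (σ ++ [false]) Y ∨
      Ev J d (σ ++ [true]) Y) (fun Y => by
        have h := fun b => ev_indep hJ d (σ ++ [b]) (J σ) (hJ σ b) Y
        simp only [h false, h true])
    have h4 : cnt L (Ev J (d + 1) σ) = cnt L fun Y => J σ ∈ Y ∧
      (Ev J d (σ ++ [false]) Y ∨ Ev J d (σ ++ [true]) Y) := rfl
    rw [h4]
    have h3' : (2 : ℝ) * cnt L (fun Y => J σ ∈ Y ∧
      (Ev J d (σ ++ [false]) Y ∨ Ev J d (σ ++ [true]) Y)) =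
      cnt L (fun Y => Ev J d (σ ++ [false]) Y ∨ Ev J d (σ ++ [true]) Y) := by
      exact_mod_cast h3
    generalize (cnt L (fun Y => J σ ∈ Y ∧
      (Ev J d (σ ++ [false]) Y ∨ Ev J d (σ ++ [true]) Y)) : ℝ) = e at h3' ⊢
    generalize (cnt L (fun Y => Ev J d (σ ++ [false]) Y ∨ Ev J d (σ ++ [true]) Y) : ℝ) = u at *
    generalize (cnt L (Ev J d (σ ++ [false])) : ℝ) = a at *
    generalize (cnt L (Ev J d (σ ++ [true])) : ℝ) = b at *
    generalize (2 : ℝ) ^ L = M at *
    have hd : (0 : ℝ) ≤ d := by positivity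
    -- `M - a ≥ M d / (d + 2)` and so on
    have h5 : M * d ≤ (d + 2) * (M - a) := by nlinarith
    have h6 : M * d ≤ (d + 2) * (M - b) := by nlinarith
    have h7 : (M * d) * (M * d) ≤ ((d + 2) * (M - a)) * ((d + 2) * (M - b)) :=
      mul_le_mul h5 h6 (by positivity) (le_trans (by positivity) h5)
    have h8 : M * (M * d ^ 2) ≤ M * ((d + 2) ^ 2 * (M - u)) := by nlinarith
    have h9 : M * d ^ 2 ≤ (d + 2) ^ 2 * (M - u) := le_of_mul_le_mul_left h8 hM
    have h10 : (d + 2) ^ 2 * u ≤ 4 * M * (d + 1) := by nlinarith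
    have h11 : (d + 2 : ℝ) ^ 2 * ((d + 3) * u) ≤ (d + 2) ^ 2 * (4 * M) := by nlinarith
    have h12 : (d + 3) * u ≤ 4 * M := le_of_mul_le_mul_left h11 (by positivity)
    push_cast
    nlinarith

end Pool.Agent.Helper144.EKM
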