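import Pool.Agent.Helper144.EKM.Main
import Pool.Agent.N620.WP.Mea

set_option autoImplicit false

/-!
Marczewski positive sets and closed null sets.
-/

namespace Pool.Agent.Helper144.EKM

open Pool.Agent.Helper227 MeasureTheory
open scoped ENNReal

theorem lam_eq_zero {N : Set (ℕ → Bool)} (h : Small N) : lam N = 0 := by
  classical
  by_contra h0
  obtain ⟨k, hk⟩ := ENNReal.exists_nat_mul_gt h0 ENNReal.one_ne_top
  obtain ⟨L, hL⟩ := h k
  set S := (fun y : ℕ → Bool => (Finset.range L).filter fun i => y i = true) '' N with hS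
  have hfin : S.Finite := by
    refine (Finset.finite_toSet (Finset.range L).powerset).subset ?_
    rintro _ ⟨y, _, rfl⟩
    rw [Finset.mem_coe, Finset.mem_powerset]
    exact Finset.filter_subset _ _
  have h1 : N ⊆ ⋃ Y ∈ hfin.toFinset, cyl (pre (fun i => decide (i ∈ Y)) L) := by
    intro y hy
    refine Set.mem_biUnion (x := (Finset.range L).filter fun i => y i = true) ?_ ?_
    · rw [Finset.mem_coe, Set.Finite.mem_toFinset]
      exact Set.mem_image_of_mem _ hy
    · intro i hi
      rw [getElem_pre]
      rw [length_pre] at hi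
      cases hyi : y i <;> simp [hi, hyi]
  have h2 : lam N ≤ S.ncard * (1 / 2) ^ L := by
    refine (measure_mono h1).trans ((measure_biUnion_finset_le _ _).trans ?_)
    rw [Finset.sum_congr rfl (fun Y _ => by rw [lam_cyl, length_pre])]
    rw [Finset.sum_const, nsmul_eq_mul, Set.ncard_eq_toFinset_card S hfin]
  have h3 : (2 : ℝ≥0∞) * (1 / 2) = 1 := by
    rw [one_div]
    exact ENNReal.mul_inv_cancel two_ne_zero ENNReal.ofNat_ne_top
  have h4 : (k : ℝ≥0∞) * lam N ≤ 1 := by
    calc (k : ℝ≥0∞) * lam N ≤ k * (S.ncard * (1 / 2) ^ L) := by gcongr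
      _ = ((k * S.ncard : ℕ) : ℝ≥0∞) * (1 / 2) ^ L := by push_cast; ring
      _ ≤ ((2 ^ L : ℕ) : ℝ≥0∞) * (1 / 2) ^ L := by gcongr
      _ = 1 := by
        push_cast
        rw [← mul_pow, h3, one_pow]
  exact absurd hk (not_lt.2 h4)

theorem continuous_join (u : ℕ → Bool) : Continuous fun c : ℕ → Bool => join u c := by
  refine continuous_pi fun n => ?_
  unfold join
  split_ifs
  · exact continuous_const
  · exact continuous_apply _

theorem join_inj {u u' c c' : ℕ → Bool} (h : join u c = join u' c') : u = u' ∧ c = c' := by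
  constructor
  · funext n
    have h1 := congrFun h (2 * n)
    have h2 : 2 * n / 2 = n := by omega
    simpa [join, h2] using h1
  · funext n
    have h1 := congrFun h (2 * n + 1)
    have h2 : (2 * n + 1) / 2 = n := by omega
    have h3 : (2 * n + 1) % 2 = 1 := by omega
    simpa [join, h2, h3] using h1

/-- For a Marczewski positive set `A` there is a closed null set `N` such that for every `t` there
are uncountably many `a ∈ A` with `a + t ∈ N`. -/
theorem positive {A : Set (ℕ → Bool)} (hA : Pool.Agent.N620.WP.Pos A) :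
    ∃ N : Set (ℕ → Bool), IsClosed N ∧ lam N = 0 ∧
      ∀ t : ℕ → Bool, ¬ {a ∈ A | (fun n => xor (a n) (t n)) ∈ N}.Countable := by
  obtain ⟨h, hc, hi, hp⟩ := hA
  obtain ⟨N, h1, h2, h3⟩ := ekm hc hi
  refine ⟨N, h1, lam_eq_zero h2, fun t hcount => ?_⟩
  obtain ⟨k, hk, hki, hkN⟩ := h3 t
  have h4 : ∀ u : ℕ → Bool, ∃ c, h (k (join u c)) ∈ A := fun u =>
    hp (fun c => k (join u c)) (hk.comp (continuous_join u)) fun c c' hcc => (join_inj (hki hcc)).2
  choose c hcA using h4
  have h5 : Function.Injective fun u => h (k (join u (c u))) := by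
    intro u u' huu
    exact (join_inj (hki (hi huu))).1
  have h6 : (Set.range fun u => h (k (join u (c u)))).Countable := by
    refine hcount.mono ?_
    rintro _ ⟨u, rfl⟩
    exact ⟨hcA u, hkN _⟩
  have h7 : Countable (ℕ → Bool) := by
    have := h6.to_subtype
    exact (Set.rangeFactorization_injective.2 h5).countable
  obtain ⟨e, he⟩ := exists_injective_nat (ℕ → Bool)
  classical
  refine Function.cantor_injective (fun S : Set ℕ => e fun n => decide (n ∈ S))
    (he.comp fun S S' hS => ?_)
  ext n
  exact decide_eq_decide.1 (congrFun hS n)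

end Pool.Agent.Helper144.EKM
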