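import Pool.Agent.Helper144.EKM.Scheme

set_option autoImplicit false

/-!
For every Cantor set `P` there is a closed null set `N` such that for every `t` the set
`P ∩ (N + t)` contains a Cantor set. (The existence of a null set `N` with `P + N = 2 ^ ω` is due to
Erdős, Kunen and Mauldin.)
-/

namespace Pool.Agent.Helper144.EKM

open Pool.Agent.Helper227 Pool.Agent.W885.TD Filter Topology

/-- The first level of the `i`-th block. -/
def nn : ℕ → ℕ
  | 0 => 0
  | i + 1 => nn i + 2 ^ (nn i + 1) * (i + 1) + 1

/-- The length of the `i`-th block. -/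
def rr (i : ℕ) : ℕ := 2 ^ (nn i + 1) * (i + 1)

/-- The free level after the `i`-th block. -/
def ss (i : ℕ) : ℕ := nn i + rr i

theorem nn_succ (i : ℕ) : nn (i + 1) = ss i + 1 := rfl

theorem ss_strictMono : StrictMono ss := strictMono_nat_of_lt_succ fun i => by
  have h := nn_succ i
  change ss i < nn (i + 1) + rr (i + 1)
  omega

theorem ss_ne {i m : ℕ} (h1 : nn i ≤ m) (h2 : m < ss i) (k : ℕ) : ss k ≠ m := by
  intro hk
  rcases lt_or_ge k i with h | h
  · have h3 : ss k + 1 ≤ nn i := by
      obtain ⟨l, rfl⟩ : ∃ l, i = l + 1 := ⟨i - 1, by omega⟩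
      rw [nn_succ]
      have := ss_strictMono.monotone (show k ≤ l by omega)
      omega
    omega
  · have := ss_strictMono.monotone h
    omega

/-- There is a path of length `d` from the node `σ` such that `y` has the digit one at the
coordinates of all nodes of the path. -/
def EvP (J : List Bool → ℕ) : ℕ → List Bool → (ℕ → Bool) → Prop
  | 0, _, _ => True
  | d + 1, σ, y => y (J σ) = true ∧ (EvP J d (σ ++ [false]) y ∨ EvP J d (σ ++ [true]) y)

theorem evP_of_path (J : List Bool → ℕ) (d : ℕ) : ∀ (n : ℕ) (x y : ℕ → Bool),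
    (∀ m, n ≤ m → m < n + d → y (J (pre x m)) = true) → EvP J d (pre x n) y := by
  induction d with
  | zero => exact fun _ _ _ _ => trivial
  | succ d ih =>
    intro n x y h
    refine ⟨h n le_rfl (by omega), ?_⟩
    have h1 := ih (n + 1) x y fun m h2 h3 => h m (by omega) (by omega)
    rw [pre_succ] at h1
    cases hx : x n
    · rw [hx] at h1
      exact Or.inl h1
    · rw [hx] at h1
      exact Or.inr h1

theorem isClosed_evP (J : List Bool → ℕ) (d : ℕ) : ∀ σ : List Bool, IsClosed {y | EvP J d σ y} := by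
  induction d with
  | zero =>
    intro σ
    have h : {y | EvP J 0 σ y} = Set.univ := Set.eq_univ_of_forall fun y => trivial
    rw [h]
    exact isClosed_univ
  | succ d ih =>
    intro σ
    have h : {y | EvP J (d + 1) σ y} = {y : ℕ → Bool | y (J σ) = true} ∩
        ({y | EvP J d (σ ++ [false]) y} ∪ {y | EvP J d (σ ++ [true]) y}) := rfl
    rw [h]
    refine IsClosed.inter ?_ ((ih _).union (ih _))
    exact isClosed_eq (continuous_apply _) continuous_const

theorem ev_of_evP (J : List Bool → ℕ) (L : ℕ) (d : ℕ) : ∀ (σ : List Bool) (y : ℕ → Bool),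
    (∀ τ : List Bool, τ.length < σ.length + d → J τ < L) → EvP J d σ y →
    Ev J d σ ((Finset.range L).filter fun i => y i = true) := by
  induction d with
  | zero => exact fun _ _ _ _ => trivial
  | succ d ih =>
    rintro σ y hL ⟨h1, h2⟩
    refine ⟨?_, ?_⟩
    · simp only [Finset.mem_filter, Finset.mem_range]
      exact ⟨hL σ (by omega), h1⟩
    · refine h2.imp (ih _ _ ?_) (ih _ _ ?_) <;>
      · intro τ hτ
        refine hL τ ?_
        simp only [List.length_append, List.length_singleton] at hτ
        omega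

/-- The closed null set. -/
def NN (J : List Bool → ℕ) : Set (ℕ → Bool) :=
  {y | ∀ i, ∃ σ : List Bool, σ.length = nn i ∧ EvP J (rr i) σ y}

theorem isClosed_NN (J : List Bool → ℕ) : IsClosed (NN J) := by
  have h : NN J = ⋂ i, ⋃ σ ∈ {σ : List Bool | σ.length = nn i}, {y | EvP J (rr i) σ y} := by
    ext y
    simp [NN]
  rw [h]
  exact isClosed_iInter fun i => (List.finite_length_eq Bool (nn i)).isClosed_biUnion
    fun σ _ => isClosed_evP J _ σ

/-- The set `N` (a closed set) has measure zero: for each `k` there is `L` such that at most a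
fraction `1 / k` of the subsets of `{0, ..., L - 1}` are of the form `{i < L | y i = 1}`, `y ∈ N`. -/
def Small (N : Set (ℕ → Bool)) : Prop :=
  ∀ k : ℕ, ∃ L : ℕ, k * ((fun y : ℕ → Bool => (Finset.range L).filter fun i => y i = true) ''
    N).ncard ≤ 2 ^ L

theorem ofFn_cast (σ : List Bool) {n : ℕ} (h : σ.length = n) :
    List.ofFn (fun i : Fin n => σ.get (Fin.cast h.symm i)) = σ := by
  subst h
  exact List.ofFn_get σ

theorem small_NN {J : List Bool → ℕ} (hJ : ∀ σ b, J σ < J (σ ++ [b])) : Small (NN J) := by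
  classical
  intro k
  obtain ⟨L, hL⟩ : ∃ L, ∀ σ : List Bool, σ.length < nn k + rr k → J σ < L := by
    obtain ⟨B, hB⟩ := ((List.finite_length_lt Bool (nn k + rr k)).image J).bddAbove
    refine ⟨B + 1, fun σ hσ => ?_⟩
    have := hB (Set.mem_image_of_mem J hσ)
    omega
  refine ⟨L, ?_⟩
  set B := 2 * 2 ^ L / (rr k + 2) with hBdef
  have h1 : ∀ f : Fin (nn k) → Bool,
      (((Finset.range L).powerset.filter (Ev J (rr k) (List.ofFn f))).card) ≤ B := by
    intro f
    have h := cnt_ev hJ L (nn k + rr k) hL (rr k) (List.ofFn f) (by simp)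
    have h' : (rr k + 2) * cnt L (Ev J (rr k) (List.ofFn f)) ≤ 2 * 2 ^ L := by exact_mod_cast h
    rw [hBdef, Nat.le_div_iff_mul_le (by omega), mul_comm]
    convert h' using 2
    unfold cnt
    congr
  have h2 : ((fun y : ℕ → Bool => (Finset.range L).filter fun i => y i = true) '' NN J) ⊆
      ((Finset.univ.biUnion fun f : Fin (nn k) → Bool =>
        (Finset.range L).powerset.filter (Ev J (rr k) (List.ofFn f)) : Finset (Finset ℕ)) :
        Set (Finset ℕ)) := by
    rintro _ ⟨y, hy, rfl⟩
    obtain ⟨σ, hσ, hσy⟩ := hy k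
    rw [Finset.mem_coe, Finset.mem_biUnion]
    refine ⟨fun i => σ.get (Fin.cast hσ.symm i), Finset.mem_univ _, ?_⟩
    rw [ofFn_cast σ hσ]
    simp only [Finset.mem_filter, Finset.mem_powerset]
    refine ⟨Finset.filter_subset _ _, ev_of_evP J L _ σ y ?_ hσy⟩
    intro τ hτ
    exact hL τ (by omega)
  have h3 : ((fun y : ℕ → Bool => (Finset.range L).filter fun i => y i = true) '' NN J).ncard ≤
      2 ^ nn k * B := by
    refine (Set.ncard_le_ncard h2 (Finset.finite_toSet _)).trans ?_
    rw [Set.ncard_coe_finset]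
    refine (Finset.card_biUnion_le_card_mul _ _ B fun f _ => h1 f).trans ?_
    simp
  have h4 : 2 * (k * 2 ^ nn k) ≤ rr k + 2 := by
    unfold rr
    have h5 : (2 : ℕ) ^ (nn k + 1) = 2 * 2 ^ nn k := by ring
    rw [h5]
    nlinarith [Nat.zero_le (2 ^ nn k)]
  have h5 : (rr k + 2) * B ≤ 2 * 2 ^ L := by
    rw [hBdef]
    exact Nat.mul_div_le _ _
  have h6 : 2 * (k * (2 ^ nn k * B)) ≤ 2 * 2 ^ L := by
    calc 2 * (k * (2 ^ nn k * B)) = 2 * (k * 2 ^ nn k) * B := by ring
      _ ≤ (rr k + 2) * B := Nat.mul_le_mul_right _ h4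
      _ ≤ _ := h5
  calc _ ≤ k * (2 ^ nn k * B) := Nat.mul_le_mul_left _ h3
    _ ≤ 2 ^ L := by omega

/-! ### The paths -/

open Classical in
/-- The next digit of the path for `t` with free digits `c`. -/
noncomputable def bit (J : List Bool → ℕ) (t c : ℕ → Bool) (n : ℕ) (σ : List Bool) : Bool :=
  if h : ∃ i, ss i = n then c h.choose else !(t (J σ))

/-- The path for `t` with free digits `c`. -/
noncomputable def sq (J : List Bool → ℕ) (t c : ℕ → Bool) : ℕ → List Bool
  | 0 => []
  | n + 1 => sq J t c n ++ [bit J t c n (sq J t c n)]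

/-- The branch for `t` with free digits `c`. -/
noncomputable def xx (J : List Bool → ℕ) (t c : ℕ → Bool) (n : ℕ) : Bool := bit J t c n (sq J t c n)

theorem pre_xx (J : List Bool → ℕ) (t c : ℕ → Bool) (n : ℕ) : pre (xx J t c) n = sq J t c n := by
  induction n with
  | zero => rfl
  | succ n ih =>
    rw [pre_succ, ih]
    rfl

theorem xx_free (J : List Bool → ℕ) (t c : ℕ → Bool) (i : ℕ) : xx J t c (ss i) = c i := by
  have h : ∃ k, ss k = ss i := ⟨i, rfl⟩
  unfold xx bit
  rw [dif_pos h]
  congr 1
  exact ss_strictMono.injective h.choose_spec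

theorem xx_block (J : List Bool → ℕ) (t c : ℕ → Bool) {i m : ℕ} (h1 : nn i ≤ m) (h2 : m < ss i) :
    xx J t c m = !(t (J (pre (xx J t c) m))) := by
  rw [pre_xx]
  unfold xx bit
  rw [dif_neg]
  rintro ⟨k, hk⟩
  exact ss_ne h1 h2 k hk

theorem sq_congr (J : List Bool → ℕ) (t : ℕ → Bool) {c c' : ℕ → Bool} (n : ℕ)
    (h : ∀ i < n, c i = c' i) : sq J t c n = sq J t c' n := by
  induction n with
  | zero => rfl
  | succ n ih =>
    have h1 := ih fun i hi => h i (by omega)
    have h2 : bit J t c n (sq J t c n) = bit J t c' n (sq J t c' n) := by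
      rw [h1]
      unfold bit
      split_ifs with h3
      · refine h _ ?_
        have h4 := h3.choose_spec
        have h5 := ss_strictMono.id_le h3.choose
        simp only [id] at h5
        omega
      · rfl
    change sq J t c n ++ [bit J t c n (sq J t c n)] = sq J t c' n ++ [bit J t c' n (sq J t c' n)]
    rw [h1] at h2 ⊢
    rw [h2]

theorem continuous_xx (J : List Bool → ℕ) (t : ℕ → Bool) : Continuous (xx J t) := by
  refine continuous_pi fun n => ?_
  refine IsLocallyConstant.continuous ((IsLocallyConstant.iff_eventually_eq _).2 fun c => ?_)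
  filter_upwards [(isOpen_cyl (pre c (n + 1))).mem_nhds (mem_cyl_pre c (n + 1))] with c' hc'
  have h1 : ∀ i < n + 1, c' i = c i := by
    intro i hi
    have h2 := hc' i (by simpa using hi)
    rw [h2, getElem_pre]
  have h2 := sq_congr J t (n + 1) h1
  have h3 : (sq J t c' (n + 1)).getLast? = (sq J t c (n + 1)).getLast? := by rw [h2]
  change (sq J t c' n ++ [xx J t c' n]).getLast? = (sq J t c n ++ [xx J t c n]).getLast? at h3
  simpa using h3

/-- Every Cantor set meets all translates of a closed null set in a set with a Cantor subset. -/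
theorem ekm {h : (ℕ → Bool) → ℕ → Bool} (hc : Continuous h) (hi : Function.Injective h) :
    ∃ N : Set (ℕ → Bool), IsClosed N ∧ Small N ∧ ∀ t : ℕ → Bool,
      ∃ k : (ℕ → Bool) → ℕ → Bool, Continuous k ∧ Function.Injective k ∧
        ∀ c, (fun n => xor (h (k c) n) (t n)) ∈ N := by
  obtain ⟨J, g, hJ, hg, hval⟩ := scheme hc hi
  refine ⟨NN J, isClosed_NN J, small_NN hJ, fun t => ⟨fun c => g (xx J t c),
    hg.comp (continuous_xx J t), ?_, fun c i => ?_⟩⟩
  · intro c c' hcc
    funext i
    have h1 := hval (xx J t c)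
    have h2 := hval (xx J t c')
    have h3 : ∀ n, pre (xx J t c) n = pre (xx J t c') n := by
      intro n
      induction n with
      | zero => rfl
      | succ n ih =>
        rw [pre_succ, pre_succ, ← h1 n, ← h2 n, ih]
        have h4 : g (xx J t c) = g (xx J t c') := hcc
        rw [h4]
    have h4 : xx J t c (ss i) = xx J t c' (ss i) := by
      rw [← h1, ← h2, h3]
      have h4 : g (xx J t c) = g (xx J t c') := hcc
      rw [h4]
    rwa [xx_free, xx_free] at h4
  · refine ⟨pre (xx J t c) (nn i), by simp, evP_of_path J _ _ _ _ fun m h1 h2 => ?_⟩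
    have h3 := xx_block J t c h1 h2
    change xor (h (g (xx J t c)) (J (pre (xx J t c) m))) (t (J (pre (xx J t c) m))) = true
    rw [hval, h3]
    cases t (J (pre (xx J t c) m)) <;> rfl

end Pool.Agent.Helper144.EKM
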