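import Pool.Agent.Helper144.EKM.Count
import Pool.Agent.W885.TD.Cat

set_option autoImplicit false

/-!
A Cantor set in normal form: for every node there is one coordinate which decides the next digit.
-/

namespace Pool.Agent.Helper144.EKM

open Pool.Agent.Helper227 Pool.Agent.W885.TD Filter Topology

theorem pre_prefix (x : ℕ → Bool) {m n : ℕ} (h : m ≤ n) : pre x m <+: pre x n := by
  induction n, h using Nat.le_induction with
  | base => exact List.prefix_refl _
  | succ n _ ih =>
    rw [pre_succ]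
    exact ih.trans (List.prefix_append _ _)

theorem exists_cyl {U : Set (ℕ → Bool)} (hU : IsOpen U) {x : ℕ → Bool} (hx : x ∈ U) (m : ℕ) :
    ∃ n ≥ m, cyl (pre x n) ⊆ U := by
  by_contra hc
  push Not at hc
  have h : ∀ n, ∃ a, a ∈ cyl (pre x (max n m)) ∧ a ∉ U := by
    intro n
    obtain ⟨a, ha, ha'⟩ := Set.not_subset.1 (hc (max n m) (le_max_right _ _))
    exact ⟨a, ha, ha'⟩
  choose a ha ha' using h
  have ht : Tendsto a atTop (𝓝 x) := by
    rw [tendsto_pi_nhds]
    intro i
    refine tendsto_const_nhds.congr' ?_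
    filter_upwards [eventually_gt_atTop i] with n hn
    have h1 := ha n i (by
      rw [length_pre]
      exact lt_of_lt_of_le hn (le_max_left _ _))
    rw [h1, getElem_pre]
  obtain ⟨n, hn⟩ := (ht.eventually (hU.mem_nhds hx)).exists
  exact ha' n hn

theorem continuous_of_pre {α : Type*} [TopologicalSpace α] (F : List Bool → α) (n : ℕ) :
    Continuous fun x : ℕ → Bool => F (pre x n) := by
  refine IsLocallyConstant.continuous ((IsLocallyConstant.iff_eventually_eq _).2 fun x => ?_)
  filter_upwards [(isOpen_cyl (pre x n)).mem_nhds (mem_cyl_pre x n)] with y hy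
  have h1 : pre y n = pre x n := by simpa using mem_cyl_iff.1 hy
  rw [h1]

theorem split {h : (ℕ → Bool) → ℕ → Bool} (hc : Continuous h) (hi : Function.Injective h)
    (ρ : List Bool) (m : ℕ) :
    ∃ j, m < j ∧ ∀ b : Bool, ∃ ρ' : List Bool, ρ <+: ρ' ∧ ρ.length < ρ'.length ∧
      ∀ x ∈ cyl ρ', h x j = b := by
  let e : ℕ → ℕ → Bool := fun n => glue ρ fun k => decide (k = n)
  have he : Function.Injective e := by
    intro a b hab
    have h1 := congrFun hab (ρ.length + a)
    have h2 : ∀ n, e n (ρ.length + a) = decide (a = n) := by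
      intro n
      simp [e, glue]
    rw [h2, h2] at h1
    by_contra hne
    simp [hne] at h1
  have hmem : ∀ n, e n ∈ cyl ρ := fun n => glue_mem _ _
  obtain ⟨a, b, hab, h1⟩ := Finite.exists_ne_map_eq_of_infinite
    (fun (n : ℕ) (i : Fin (m + 1)) => h (e n) i)
  obtain ⟨j, hj⟩ : ∃ j, h (e a) j ≠ h (e b) j := by
    by_contra hcon
    push Not at hcon
    exact hab (he (hi (funext hcon)))
  refine ⟨j, ?_, fun v => ?_⟩
  · by_contra hcon
    exact hj (congrFun h1 ⟨j, by omega⟩)
  · obtain ⟨w, hw, hwv⟩ : ∃ w ∈ cyl ρ, h w j = v := by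
      by_cases hv : h (e a) j = v
      · exact ⟨_, hmem a, hv⟩
      · refine ⟨_, hmem b, ?_⟩
        cases hva : h (e a) j <;> cases hvb : h (e b) j <;> cases v <;> simp_all
    have hU : IsOpen {y | h y j = v} := by
      have h2 : {y | h y j = v} = (fun y => h y j) ⁻¹' {v} := rfl
      rw [h2]
      exact (isOpen_discrete _).preimage ((continuous_apply j).comp hc)
    obtain ⟨n, hn, hsub⟩ := exists_cyl hU (x := w) hwv (ρ.length + 1)
    refine ⟨pre w n, ?_, ?_, fun x hx => hsub hx⟩
    · have h3 := mem_cyl_iff.1 hw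
      have h4 := pre_prefix w (show ρ.length ≤ n by omega)
      rw [h3] at h4
      exact h4
    · rw [length_pre]
      omega

theorem scheme {h : (ℕ → Bool) → ℕ → Bool} (hc : Continuous h) (hi : Function.Injective h) :
    ∃ (J : List Bool → ℕ) (g : (ℕ → Bool) → ℕ → Bool), (∀ σ b, J σ < J (σ ++ [b])) ∧
      Continuous g ∧ ∀ x n, h (g x) (J (pre x n)) = x n := by
  choose jj hjj ρρ h1 h2 h3 using split hc hi
  let nd : List Bool → List Bool × ℕ := fun σ =>
    σ.foldl (fun p b => (ρρ p.1 p.2 b, jj p.1 p.2)) ([], 0)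
  have hnd : ∀ σ b, nd (σ ++ [b]) = (ρρ (nd σ).1 (nd σ).2 b, jj (nd σ).1 (nd σ).2) := by
    intro σ b
    simp [nd, List.foldl_append]
  let J : List Bool → ℕ := fun σ => jj (nd σ).1 (nd σ).2
  let φ : List Bool → List Bool := fun σ => (nd σ).1
  have hφ : ∀ σ b, φ σ <+: φ (σ ++ [b]) ∧ (φ σ).length < (φ (σ ++ [b])).length := by
    intro σ b
    simp only [φ, hnd]
    exact ⟨h1 _ _ _, h2 _ _ _⟩
  have hlen : ∀ x n, n ≤ (φ (pre x n)).length := by
    intro x n
    induction n with
    | zero => exact Nat.zero_le _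
    | succ n ih =>
      rw [pre_succ]
      have := (hφ (pre x n) (x n)).2
      omega
  have hpre : ∀ x {m n : ℕ}, m ≤ n → φ (pre x m) <+: φ (pre x n) := by
    intro x m n hmn
    induction n, hmn using Nat.le_induction with
    | base => exact List.prefix_refl _
    | succ n _ ih =>
      rw [pre_succ]
      exact ih.trans (hφ _ _).1
  let g : (ℕ → Bool) → ℕ → Bool := fun x i => (φ (pre x (i + 1))).getD i false
  have hg : ∀ x n, g x ∈ cyl (φ (pre x n)) := by
    intro x n i hin
    have h4 : i < (φ (pre x (i + 1))).length := lt_of_lt_of_le (Nat.lt_succ_self i) (hlen x _)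
    have h5 : g x i = (φ (pre x (i + 1)))[i] := List.getD_eq_getElem _ _ h4
    rw [h5]
    rcases le_total n (i + 1) with h6 | h6
    · exact ((hpre x h6).getElem hin).symm
    · exact (hpre x h6).getElem h4
  refine ⟨J, g, fun σ b => ?_, continuous_pi fun i => ?_, fun x n => ?_⟩
  · have h4 : (nd (σ ++ [b])).2 = J σ := by rw [hnd]
    have h5 := hjj (nd (σ ++ [b])).1 (nd (σ ++ [b])).2
    rw [h4] at h5
    change J σ < jj (nd (σ ++ [b])).1 (nd (σ ++ [b])).2
    rw [h4]
    exact h5
  · exact continuous_of_pre (fun σ => (φ σ).getD i false) (i + 1)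
  · have h4 := hg x (n + 1)
    rw [pre_succ] at h4
    simp only [φ, hnd] at h4
    exact h3 _ _ _ _ h4

end Pool.Agent.Helper144.EKM
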